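import Pool.Agent.H16.Lib.S8.TH462.T4.Crit

set_option autoImplicit false
set_option linter.unusedSectionVars false
set_option synthInstance.maxHeartbeats 400000
set_option synthInstance.maxSize 2048

/-! # Edge cuts of a minimal counterexample -/

namespace Pool.Agent.TH676.T4

open Finset Pool.Agent.TH462.T4

variable {V E : Type} [Fintype V] [DecidableEq V] [Fintype E] [DecidableEq E]

/-- the vertex is incident with a proper edge -/
def Nis (src dst : E → V) (x : V) : Prop := ∃ e, src e ≠ dst e ∧ (src e = x ∨ dst e = x)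

/-- the sum of a flow over an edge cut -/
theorem sum_cut {src dst : E → V} {f : E → K4} {Y : Finset V}
    (h : ∀ v ∈ Y, bd src dst f v = 0) : ∑ e ∈ crs src dst Y, f e = 0 := by
  have h1 : ∑ v ∈ Y, bd src dst f v = 0 := sum_eq_zero h
  unfold bd at h1
  rw [sum_comm] at h1
  refine Eq.trans ?_ h1
  unfold crs
  rw [sum_filter]
  refine sum_congr rfl fun e _ => ?_
  rw [sum_add_distrib, sum_ite_eq, sum_ite_eq]
  by_cases h2 : src e ∈ Y <;> by_cases h3 : dst e ∈ Y <;> simp [h2, h3, K4.add_self]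

/-- flows on the two sides of a cut which agree up to an automorphism give a flow -/
theorem glue {src dst : E → V} {f1 f2 : E → K4} {Y : Finset V} (σ : K4 →+ K4)
    (hσ : ∀ x, σ x = 0 → x = 0) (h1 : ∀ v ∈ Y, bd src dst f1 v = 0)
    (h2 : ∀ v, v ∉ Y → bd src dst f2 v = 0)
    (hn1 : ∀ e, (src e ∈ Y ∨ dst e ∈ Y) → f1 e ≠ 0)
    (hn2 : ∀ e, src e ∉ Y → dst e ∉ Y → f2 e ≠ 0)
    (ha : ∀ e ∈ crs src dst Y, f1 e = σ (f2 e)) : FlowOn src dst ∅ ∅ := by
  refine ⟨fun e => if src e ∈ Y ∨ dst e ∈ Y then f1 e else σ (f2 e), fun v => ?_,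
    fun e he => absurd he (notMem_empty _), fun e _ _ => ?_⟩
  · by_cases hv : v ∈ Y
    · rw [← h1 v hv]
      unfold bd
      refine sum_congr rfl fun e _ => ?_
      by_cases h3 : src e = v
      · have : src e ∈ Y := h3 ▸ hv
        simp [this]
      · by_cases h4 : dst e = v
        · have : dst e ∈ Y := h4 ▸ hv
          simp [this]
        · simp [h3, h4]
    · have h5 : σ (bd src dst f2 v) = 0 := by rw [h2 v hv, map_zero]
      rw [← h5]
      unfold bd
      rw [map_sum]
      refine sum_congr rfl fun e _ => ?_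
      rw [map_add]
      beta_reduce
      have key : (src e = v ∨ dst e = v) →
          (if src e ∈ Y ∨ dst e ∈ Y then f1 e else σ (f2 e)) = σ (f2 e) := by
        intro h6
        split_ifs with h7
        · refine ha e (mem_crs.mpr ?_)
          rcases h6 with h6 | h6
          · have : src e ∉ Y := h6 ▸ hv
            tauto
          · have : dst e ∉ Y := h6 ▸ hv
            tauto
        · rfl
      by_cases h3 : src e = v
      · rw [if_pos h3, if_pos h3, key (Or.inl h3)]
        by_cases h4 : dst e = v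
        · rw [if_pos h4, if_pos h4]
        · rw [if_neg h4, if_neg h4, map_zero]
      · rw [if_neg h3, if_neg h3, map_zero]
        by_cases h4 : dst e = v
        · rw [if_pos h4, if_pos h4, key (Or.inr h4)]
        · rw [if_neg h4, if_neg h4, map_zero]
  · change (if src e ∈ Y ∨ dst e ∈ Y then f1 e else σ (f2 e)) ≠ 0
    split_ifs with h
    · exact hn1 e h
    · rw [not_or] at h
      exact fun h3 => hn2 e h.1 h.2 (hσ _ h3)

/-- contraction only -/
theorem MinCx.con {src dst : E → V} (h : MinCx src dst) (C : Finset E)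
    (hne : ∃ e ∈ C, src e ≠ dst e) : FlowOn src dst ∅ C := by
  refine h.crit ∅ C (disjoint_empty_left _) (by simpa using hne) ?_
  intro Y _
  have := h.br Y (disjoint_empty_right _)
  simpa using this

/-- the two flows at a cut -/
theorem MinCx.sides {src dst : E → V} (h : MinCx src dst) (Y : Finset V)
    (h1 : ∃ e, src e ≠ dst e ∧ src e ∈ Y ∧ dst e ∈ Y)
    (h2 : ∃ e, src e ≠ dst e ∧ src e ∉ Y ∧ dst e ∉ Y) :
    ∃ f1 f2 : E → K4, (∀ v, bd src dst f1 v = 0) ∧ (∀ v, bd src dst f2 v = 0) ∧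
      (∀ e, (src e ∈ Y ∨ dst e ∈ Y) → f1 e ≠ 0) ∧
      (∀ e, (src e ∉ Y ∨ dst e ∉ Y) → f2 e ≠ 0) := by
  obtain ⟨f1, a1, _, a3⟩ := MinCx.con h (univ.filter (fun e => src e ∉ Y ∧ dst e ∉ Y)) (by
    obtain ⟨e, he, he2⟩ := h2
    exact ⟨e, by simpa using he2, he⟩)
  obtain ⟨f2, b1, _, b3⟩ := MinCx.con h (univ.filter (fun e => src e ∈ Y ∧ dst e ∈ Y)) (by
    obtain ⟨e, he, he2⟩ := h1
    exact ⟨e, by simpa using he2, he⟩)
  refine ⟨f1, f2, a1, b1, fun e he => a3 e (notMem_empty _) ?_,
    fun e he => b3 e (notMem_empty _) ?_⟩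
  · simp only [mem_filter, mem_univ, true_and]; tauto
  · simp only [mem_filter, mem_univ, true_and]; tauto

/-- every edge cut with proper edges on both sides has at least three edges -/
theorem cut3 {src dst : E → V} (h : MinCx src dst) {Y : Finset V} {x y : V} (hx : x ∈ Y)
    (hy : y ∉ Y) (nx : Nis src dst x) (ny : Nis src dst y) : 3 ≤ (crs src dst Y).card := by
  by_contra hlt
  have h1 : (crs src dst Y).card ≠ 1 := by
    have := h.br Y (disjoint_empty_right _)
    simpa using this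
  have h02 : (crs src dst Y).card = 0 ∨ (crs src dst Y).card = 2 := by omega
  rcases h02 with h0 | h2
  · rw [card_eq_zero] at h0
    have hin : ∀ e, (src e ∈ Y ↔ dst e ∈ Y) := by
      intro e
      by_contra hc
      have := mem_crs.mpr hc
      rw [h0] at this
      exact absurd this (notMem_empty _)
    obtain ⟨f1, f2, a1, a2, a3, a4⟩ := MinCx.sides h Y (by
      obtain ⟨e, he, he2⟩ := nx
      refine ⟨e, he, ?_⟩
      rcases he2 with he2 | he2
      · have : src e ∈ Y := he2 ▸ hx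
        exact ⟨this, (hin e).mp this⟩
      · have : dst e ∈ Y := he2 ▸ hx
        exact ⟨(hin e).mpr this, this⟩) (by
      obtain ⟨e, he, he2⟩ := ny
      refine ⟨e, he, ?_⟩
      rcases he2 with he2 | he2
      · have : src e ∉ Y := he2 ▸ hy
        exact ⟨this, fun hd => this ((hin e).mpr hd)⟩
      · have : dst e ∉ Y := he2 ▸ hy
        exact ⟨fun hd => this ((hin e).mp hd), this⟩)
    refine h.nf (glue (Y := Y) (f1 := f1) (f2 := f2) (AddMonoidHom.id K4) (fun x hx => hx)
      (fun v _ => a1 v) (fun v _ => a2 v) a3 (fun e he _ => a4 e (Or.inl he)) ?_)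
    intro e he
    rw [h0] at he
    exact absurd he (notMem_empty _)
  · obtain ⟨e1, e2, hne, hY⟩ := card_eq_two.mp h2
    have he1 : e1 ∈ crs src dst Y := by rw [hY]; simp
    obtain ⟨f, hf1, _, hf2⟩ := MinCx.con h {e1} ⟨e1, by simp, fun heq => by
      rw [mem_crs, heq] at he1; exact he1 Iff.rfl⟩
    have hsum := sum_cut (src := src) (dst := dst) (f := f) (Y := Y) (fun v _ => hf1 v)
    rw [hY, sum_pair hne] at hsum
    refine h.nf ⟨f, hf1, fun e he => absurd he (notMem_empty _), fun e _ _ => ?_⟩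
    by_cases hee : e = e1
    · subst hee
      intro h0
      rw [h0, zero_add] at hsum
      exact hf2 e2 (notMem_empty _) (by simpa using hne.symm) hsum
    · exact hf2 e (notMem_empty _) (by simpa using hee)

theorem K4.match2 : ∀ a b a' b' : K4, a ≠ 0 → b ≠ 0 → a ≠ b → a' ≠ 0 → b' ≠ 0 → a' ≠ b' →
    ∃ p q : K4, (∀ x : K4, (if x.1 = 1 then p else 0) + (if x.2 = 1 then q else 0) = 0 → x = 0) ∧
      (if a.1 = 1 then p else 0) + (if a.2 = 1 then q else 0) = a' ∧
      (if b.1 = 1 then p else 0) + (if b.2 = 1 then q else 0) = b' := by decide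

def lin (p q : K4) : K4 →+ K4 where
  toFun x := (if x.1 = 1 then p else 0) + (if x.2 = 1 then q else 0)
  map_zero' := by simp
  map_add' := by revert p q; decide

theorem K4.hom (a b a' b' : K4) (ha : a ≠ 0) (hb : b ≠ 0) (hab : a ≠ b) (ha' : a' ≠ 0)
    (hb' : b' ≠ 0) (hab' : a' ≠ b') :
    ∃ σ : K4 →+ K4, (∀ x, σ x = 0 → x = 0) ∧ σ a = a' ∧ σ b = b' := by
  obtain ⟨p, q, h1, h2, h3⟩ := K4.match2 a b a' b' ha hb hab ha' hb' hab'
  exact ⟨lin p q, h1, h2, h3⟩

theorem K4.three {a b c : K4} (h : a + (b + c) = 0) : c = a + b ∧ (c ≠ 0 → a ≠ b) := by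
  revert a b c; decide

/-- every edge cut with at least two vertices on both sides has at least four edges -/
theorem cut4 {src dst : E → V} (h : MinCx src dst) {Y : Finset V} {x x2 y y2 : V} (hx : x ∈ Y)
    (hx2 : x2 ∈ Y) (hxx : x ≠ x2) (hy : y ∉ Y) (hy2 : y2 ∉ Y) (hyy : y ≠ y2)
    (nx : Nis src dst x) (nx2 : Nis src dst x2) (ny : Nis src dst y) (ny2 : Nis src dst y2) :
    4 ≤ (crs src dst Y).card := by
  by_contra hlt
  have h3 : (crs src dst Y).card = 3 := by
    have := cut3 h hx hy nx ny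
    omega
  -- a side without proper edges is too small
  have side : ∀ (p p2 : V) (Q : V → Prop), Q p → Q p2 → p ≠ p2 → Nis src dst p → Nis src dst p2 →
      (∀ e, src e ≠ dst e → Q (src e) → ¬ Q (dst e)) →
      (∀ e, (Q (src e) ↔ ¬ Q (dst e)) → e ∈ crs src dst Y) → False := by
    intro p p2 Q hp hp2 hpp np np2 hQ hQ2
    have c1 : 3 ≤ (crs src dst {p}).card :=
      cut3 h (x := p) (y := p2) (mem_singleton_self _) (by simpa using hpp.symm) np np2
    have c2 : 3 ≤ (crs src dst {p2}).card :=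
      cut3 h (x := p2) (y := p) (mem_singleton_self _) (by simpa using hpp) np2 np
    have hsub : ∀ q, Q q → ∀ e ∈ crs src dst {q}, e ∈ crs src dst Y ∧
        (src e ≠ dst e) ∧ ((src e = q ∧ ¬ Q (dst e)) ∨ (dst e = q ∧ ¬ Q (src e))) := by
      intro q hq e he
      rw [mem_crs, mem_singleton, mem_singleton] at he
      have hne : src e ≠ dst e := fun heq => he (by rw [heq])
      by_cases hs : src e = q
      · have h5 : Q (src e) := hs ▸ hq
        have h6 := hQ e hne h5
        exact ⟨hQ2 e ⟨fun _ => h6, fun _ => h5⟩, hne, Or.inl ⟨hs, h6⟩⟩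
      · have hd : dst e = q := by tauto
        have h5 : Q (dst e) := hd ▸ hq
        have h6 : ¬ Q (src e) := fun h6 => hQ e hne h6 h5
        exact ⟨hQ2 e ⟨fun h7 => absurd h7 h6, fun h7 => absurd h5 h7⟩, hne, Or.inr ⟨hd, h6⟩⟩
    have hdis : Disjoint (crs src dst {p}) (crs src dst {p2}) := by
      rw [disjoint_left]
      intro e he he2
      obtain ⟨_, _, h5⟩ := hsub p hp e he
      obtain ⟨_, _, h6⟩ := hsub p2 hp2 e he2
      rcases h5 with ⟨a1, a2⟩ | ⟨a1, a2⟩ <;> rcases h6 with ⟨b1, b2⟩ | ⟨b1, b2⟩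
      · exact hpp (a1.symm.trans b1)
      · exact a2 (b1 ▸ hp2)
      · exact b2 (a1 ▸ hp)
      · exact hpp (a1.symm.trans b1)
    have hle : (crs src dst {p} ∪ crs src dst {p2}).card ≤ (crs src dst Y).card :=
      card_le_card (union_subset (fun e he => (hsub p hp e he).1)
        (fun e he => (hsub p2 hp2 e he).1))
    rw [card_union_of_disjoint hdis] at hle
    omega
  obtain ⟨f1, f2, a1, a2, a3, a4⟩ := MinCx.sides h Y (by
    by_contra hc
    push Not at hc
    exact side x x2 (fun z => z ∈ Y) hx hx2 hxx nx nx2 hc (fun e he => mem_crs.mpr (by tauto)))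
    (by
    by_contra hc
    push Not at hc
    exact side y y2 (fun z => z ∉ Y) hy hy2 hyy ny ny2 (fun e he h5 => by
      rw [not_not]; exact hc e he h5) (fun e he => mem_crs.mpr (by tauto)))
  obtain ⟨e1, e2, e3, h12, h13, h23, hY⟩ := card_eq_three.mp h3
  have s1 := sum_cut (src := src) (dst := dst) (f := f1) (Y := Y) (fun v _ => a1 v)
  have s2 := sum_cut (src := src) (dst := dst) (f := f2) (Y := Y) (fun v _ => a2 v)
  have hm1 : e1 ∉ ({e2, e3} : Finset E) := by simp [h12, h13]
  rw [hY, sum_insert hm1, sum_pair h23] at s1 s2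
  have hm : ∀ e, e = e1 ∨ e = e2 ∨ e = e3 → f1 e ≠ 0 ∧ f2 e ≠ 0 := by
    intro e he
    have he' : e ∈ crs src dst Y := by rw [hY]; simpa using he
    rw [mem_crs] at he'
    exact ⟨a3 e (by tauto), a4 e (by tauto)⟩
  obtain ⟨t1, t2⟩ := K4.three s1
  obtain ⟨u1, u2⟩ := K4.three s2
  obtain ⟨σ, hσ, g1, g2⟩ := K4.hom (f2 e1) (f2 e2) (f1 e1) (f1 e2)
    (hm e1 (Or.inl rfl)).2 (hm e2 (Or.inr (Or.inl rfl))).2 (u2 (hm e3 (Or.inr (Or.inr rfl))).2)
    (hm e1 (Or.inl rfl)).1 (hm e2 (Or.inr (Or.inl rfl))).1 (t2 (hm e3 (Or.inr (Or.inr rfl))).1)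
  refine h.nf (glue (Y := Y) (f1 := f1) (f2 := f2) σ hσ (fun v _ => a1 v) (fun v _ => a2 v) a3
    (fun e he _ => a4 e (Or.inl he)) ?_)
  intro e he
  rw [hY, mem_insert, mem_insert, mem_singleton] at he
  rcases he with rfl | rfl | rfl
  · exact g1.symm
  · exact g2.symm
  · rw [t1, u1, map_add, g1, g2]

end Pool.Agent.TH676.T4
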