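import Pool.Agent.H16.Lib.S8.TH462.T4.Crit

set_option autoImplicit false
set_option linter.unusedSectionVars false

/-! # The Petersen graph as a minor, by branch sets -/

namespace Pool.Agent.TH676.T4

open Finset Pool.Agent.TH462.T4

variable {V E : Type} [Fintype V] [DecidableEq V] [Fintype E] [DecidableEq E]

/-- the edges of the Petersen graph: outer cycle `0,1,2,3,4`, spokes `i, i + 5`, inner cycle
`5,7,9,6,8` -/
def petEdges : List (Fin 10 × Fin 10) :=
  [(0, 1), (1, 2), (2, 3), (3, 4), (4, 0), (5, 7), (7, 9), (9, 6), (6, 8), (8, 5),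
    (0, 5), (1, 6), (2, 7), (3, 8), (4, 9)]

/-- the edge `e` joins the sets `A` and `B` -/
def JoinsSet (src dst : E → V) (e : E) (A B : Finset V) : Prop :=
  (src e ∈ A ∧ dst e ∈ B) ∨ (src e ∈ B ∧ dst e ∈ A)

/-- the vertex set `B` is nonempty and spans a connected subgraph: it has no proper nonempty
subset which is not joined to the rest of `B` by an edge -/
def ConnSet (src dst : E → V) (B : Finset V) : Prop :=
  B.Nonempty ∧ ∀ A, A ⊆ B → A.Nonempty → A ≠ B → ∃ e, JoinsSet src dst e A (B \ A)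

/-- the graph has a Petersen graph minor: ten disjoint connected vertex sets with an edge joining
two of them whenever the corresponding vertices of the Petersen graph are adjacent -/
def PetMinor (src dst : E → V) : Prop :=
  ∃ B : Fin 10 → Finset V, (∀ i, ConnSet src dst (B i)) ∧ (∀ i j, i ≠ j → Disjoint (B i) (B j)) ∧
    ∀ x ∈ petEdges, ∃ e, JoinsSet src dst e (B x.1) (B x.2)

theorem JoinsSet.of_lp {src dst : E → V} {e d : E} {A B : Finset V}
    (h : JoinsSet src (TH462.T4.lp src dst {e}) d A B) (hd : Disjoint A B) : JoinsSet src dst d A B := by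
  by_cases hde : d = e
  · exfalso
    subst hde
    have h1 : TH462.T4.lp src dst {d} d = src d := by unfold TH462.T4.lp; simp
    unfold JoinsSet at h
    rw [h1] at h
    rcases h with ⟨a, b⟩ | ⟨a, b⟩
    · exact disjoint_left.mp hd a b
    · exact disjoint_left.mp hd b a
  · have h1 : TH462.T4.lp src dst {e} d = dst d := by unfold TH462.T4.lp; simp [hde]
    unfold JoinsSet at h ⊢
    rwa [h1] at h

theorem PetMinor.of_lp {src dst : E → V} {e : E} (h : PetMinor src (TH462.T4.lp src dst {e})) :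
    PetMinor src dst := by
  obtain ⟨B, h1, h2, h3⟩ := h
  refine ⟨B, fun i => ⟨(h1 i).1, fun A hA hA0 hA1 => ?_⟩, h2, fun x hx => ?_⟩
  · obtain ⟨d, hd⟩ := (h1 i).2 A hA hA0 hA1
    exact ⟨d, hd.of_lp disjoint_sdiff⟩
  · obtain ⟨d, hd⟩ := h3 x hx
    refine ⟨d, hd.of_lp (h2 _ _ ?_)⟩
    revert hx
    unfold petEdges
    simp only [List.mem_cons, List.not_mem_nil, or_false]
    rintro (rfl | rfl | rfl | rfl | rfl | rfl | rfl | rfl | rfl | rfl | rfl | rfl | rfl | rfl | rfl)
      <;> decide

theorem ctr_ne {u v : V} (h : u ≠ v) (x : V) : ctr u v x ≠ v := by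
  unfold ctr
  split_ifs with h1
  · exact h
  · exact h1

theorem petEdges_cover : ∀ i : Fin 10, ∃ x ∈ petEdges, x.1 = i ∨ x.2 = i := by decide

theorem PetMinor.of_ctr {src dst : E → V} {e : E} (hne : src e ≠ dst e)
    (h : PetMinor (ctr (src e) (dst e) ∘ src) (ctr (src e) (dst e) ∘ dst)) :
    PetMinor src dst := by
  obtain ⟨B, h1, h2, h3⟩ := h
  set c := ctr (src e) (dst e) with hc
  have hcid : ∀ x, x ≠ dst e → c x = x := by
    intro x hx; rw [hc]; unfold ctr; rw [if_neg hx]
  have hcv : c (dst e) = src e := by rw [hc]; unfold ctr; rw [if_pos rfl]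
  have hcne : ∀ x, c x ≠ dst e := fun x => ctr_ne hne x
  have hv : ∀ i, dst e ∉ B i := by
    intro i hi
    by_cases hB : ({dst e} : Finset V) = B i
    · obtain ⟨x, hx, hxi⟩ := petEdges_cover i
      obtain ⟨d, hd⟩ := h3 x hx
      rcases hxi with rfl | rfl
      · rw [← hB] at hd
        rcases hd with ⟨a, _⟩ | ⟨_, a⟩
        · exact hcne _ (mem_singleton.mp a)
        · exact hcne _ (mem_singleton.mp a)
      · rw [← hB] at hd
        rcases hd with ⟨_, a⟩ | ⟨a, _⟩
        · exact hcne _ (mem_singleton.mp a)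
        · exact hcne _ (mem_singleton.mp a)
    · obtain ⟨d, hd⟩ := (h1 i).2 {dst e} (singleton_subset_iff.mpr hi) (singleton_nonempty _) hB
      rcases hd with ⟨a, _⟩ | ⟨_, a⟩
      · exact hcne _ (mem_singleton.mp a)
      · exact hcne _ (mem_singleton.mp a)
  refine ⟨fun i => univ.filter (fun x => c x ∈ B i), fun i => ⟨?_, ?_⟩, fun i j hij => ?_,
    fun x hx => ?_⟩
  · obtain ⟨x, hx⟩ := (h1 i).1
    refine ⟨x, ?_⟩
    have hxv : x ≠ dst e := fun h => hv i (h ▸ hx)
    simp [hcid x hxv, hx]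
  · intro A hA hA0 hA1
    by_cases hsp : (src e ∈ A ∧ dst e ∉ A ∧ dst e ∈ univ.filter (fun x => c x ∈ B i)) ∨
        (dst e ∈ A ∧ src e ∉ A ∧ src e ∈ univ.filter (fun x => c x ∈ B i))
    · refine ⟨e, ?_⟩
      unfold JoinsSet
      rcases hsp with ⟨a1, a2, a3⟩ | ⟨a1, a2, a3⟩
      · exact Or.inl ⟨a1, mem_sdiff.mpr ⟨a3, a2⟩⟩
      · exact Or.inr ⟨mem_sdiff.mpr ⟨a3, a2⟩, a1⟩
    · have hcs : c (src e) = src e := hcid _ hne
      -- `A` is a union of classes
      have hsat : ∀ x y, c x = c y → x ∈ A → y ∈ A := by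
        intro x y hxy hx
        by_cases h4 : x = dst e
        · by_cases h5 : y = dst e
          · rw [h5, ← h4]; exact hx
          · rw [h4, hcv, hcid y h5] at hxy
            subst hxy
            by_contra h6
            refine hsp (Or.inr ⟨h4 ▸ hx, h6, ?_⟩)
            have h7 := hA hx
            rw [mem_filter] at h7 ⊢
            refine ⟨mem_univ _, ?_⟩
            rw [hcs, ← hcv, ← h4]
            exact h7.2
        · by_cases h5 : y = dst e
          · rw [h5, hcv, hcid x h4] at hxy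
            subst hxy
            by_contra h6
            refine hsp (Or.inl ⟨hx, h5 ▸ h6, ?_⟩)
            have h7 := hA hx
            rw [mem_filter] at h7 ⊢
            refine ⟨mem_univ _, ?_⟩
            rw [hcv, ← hcs]
            exact h7.2
          · rw [hcid x h4, hcid y h5] at hxy
            exact hxy ▸ hx
      have hmem : ∀ x, c x ∈ A.image c ↔ x ∈ A := by
        intro x
        rw [mem_image]
        constructor
        · rintro ⟨y, hy, hyx⟩
          exact hsat y x hyx hy
        · intro hx; exact ⟨x, hx, rfl⟩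
      obtain ⟨d, hd⟩ := (h1 i).2 (A.image c) (by
        intro y hy
        obtain ⟨x, hx, rfl⟩ := mem_image.mp hy
        exact (mem_filter.mp (hA hx)).2) (hA0.image c) (by
        intro heq
        apply hA1
        refine subset_antisymm hA fun x hx => ?_
        rw [mem_filter] at hx
        rw [← hmem, heq]
        exact hx.2)
      refine ⟨d, ?_⟩
      unfold JoinsSet at hd ⊢
      simp only [Function.comp, mem_sdiff, hmem, mem_filter, mem_univ, true_and] at hd ⊢
      exact hd
  · rw [disjoint_left]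
    intro x hx hx2
    rw [mem_filter] at hx hx2
    exact disjoint_left.mp (h2 i j hij) hx.2 hx2.2
  · obtain ⟨d, hd⟩ := h3 x hx
    refine ⟨d, ?_⟩
    unfold JoinsSet at hd ⊢
    simpa only [Function.comp, mem_filter, mem_univ, true_and] using hd

/-- the graphs without a Petersen graph minor are closed under deletions and contractions -/
theorem mc_noPet : MC (V := V) (E := E) (fun src dst => ¬ PetMinor src dst) where
  del := fun _ _ _ h _ h2 => h h2.of_lp
  con := fun _ _ _ h hne h2 => h (h2.of_ctr hne)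

theorem MC.and {C1 C2 : (E → V) → (E → V) → Prop} (h1 : MC C1) (h2 : MC C2) :
    MC (fun s d => C1 s d ∧ C2 s d) where
  del := fun s d e h hne => ⟨h1.del s d e h.1 hne, h2.del s d e h.2 hne⟩
  con := fun s d e h hne => ⟨h1.con s d e h.1 hne, h2.con s d e h.2 hne⟩

/-- the edge `e` joins the vertices `x` and `y` -/
def JV (src dst : E → V) (e : E) (x y : V) : Prop := (src e = x ∧ dst e = y) ∨ (src e = y ∧ dst e = x)

/-- ten different vertices with the edges of the Petersen graph -/
theorem PetMinor.of_vertices {src dst : E → V} (β : Fin 10 → V) (hβ : Function.Injective β)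
    (h : ∀ x ∈ petEdges, ∃ e, JV src dst e (β x.1) (β x.2)) : PetMinor src dst := by
  refine ⟨fun i => {β i}, fun i => ⟨singleton_nonempty _, fun A hA hA0 hA1 => ?_⟩,
    fun i j hij => ?_, fun x hx => ?_⟩
  · exact absurd (subset_antisymm hA (by
      obtain ⟨x, hx⟩ := hA0
      have := mem_singleton.mp (hA hx)
      rw [singleton_subset_iff, ← this]
      exact hx)) hA1
  · rw [disjoint_singleton]
    exact fun h => hij (hβ h)
  · obtain ⟨e, he⟩ := h x hx
    refine ⟨e, ?_⟩
    unfold JoinsSet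
    simp only [mem_singleton]
    exact he

/-- the list form -/
theorem PetMinor.of_list {src dst : E → V} (v0 v1 v2 v3 v4 v5 v6 v7 v8 v9 : V)
    (hn : [v0, v1, v2, v3, v4, v5, v6, v7, v8, v9].Nodup)
    (h01 : ∃ e, JV src dst e v0 v1) (h12 : ∃ e, JV src dst e v1 v2)
    (h23 : ∃ e, JV src dst e v2 v3) (h34 : ∃ e, JV src dst e v3 v4)
    (h40 : ∃ e, JV src dst e v4 v0) (h57 : ∃ e, JV src dst e v5 v7)
    (h79 : ∃ e, JV src dst e v7 v9) (h96 : ∃ e, JV src dst e v9 v6)
    (h68 : ∃ e, JV src dst e v6 v8) (h85 : ∃ e, JV src dst e v8 v5)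
    (h05 : ∃ e, JV src dst e v0 v5) (h16 : ∃ e, JV src dst e v1 v6)
    (h27 : ∃ e, JV src dst e v2 v7) (h38 : ∃ e, JV src dst e v3 v8)
    (h49 : ∃ e, JV src dst e v4 v9) : PetMinor src dst := by
  have hlen : [v0, v1, v2, v3, v4, v5, v6, v7, v8, v9].length = 10 := rfl
  refine PetMinor.of_vertices (fun i => [v0, v1, v2, v3, v4, v5, v6, v7, v8, v9].get (i.cast hlen.symm))
    ?_ ?_
  · intro i j hij
    have := (List.nodup_iff_injective_get.mp hn) hij
    exact Fin.cast_injective _ this
  · intro x hx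
    unfold petEdges at hx
    simp only [List.mem_cons, List.not_mem_nil, or_false] at hx
    rcases hx with rfl | rfl | rfl | rfl | rfl | rfl | rfl | rfl | rfl | rfl | rfl | rfl | rfl | rfl | rfl
    · exact h01
    · exact h12
    · exact h23
    · exact h34
    · exact h40
    · exact h57
    · exact h79
    · exact h96
    · exact h68
    · exact h85
    · exact h05
    · exact h16
    · exact h27
    · exact h38
    · exact h49

theorem JV.symm {src dst : E → V} {x y : V} (h : ∃ e, JV src dst e x y) :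
    ∃ e, JV src dst e y x := by
  obtain ⟨e, he⟩ := h
  exact ⟨e, Or.symm he⟩

/-- the collection `A(0123) e(01) e(04) e(24) e(34)`, where `A(0123)` consists of `r~0`,
`H(1,2|3,r)` (vertices `p`, `q`) and `H(1,3|2,r)` (vertices `p'`, `q'`) -/
theorem PetMinor.one {src dst : E → V} (x0 x1 x2 x3 x4 r p q p' q' : V)
    (hn : [x0, x1, x2, x3, x4, r, p, q, p', q'].Nodup)
    (a1 : ∃ e, JV src dst e r x0) (a2 : ∃ e, JV src dst e p x1) (a3 : ∃ e, JV src dst e p x2)
    (a4 : ∃ e, JV src dst e p q) (a5 : ∃ e, JV src dst e q x3) (a6 : ∃ e, JV src dst e q r)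
    (a7 : ∃ e, JV src dst e p' x1) (a8 : ∃ e, JV src dst e p' x3)
    (a9 : ∃ e, JV src dst e p' q') (a10 : ∃ e, JV src dst e q' x2)
    (a11 : ∃ e, JV src dst e q' r) (b1 : ∃ e, JV src dst e x0 x1)
    (b2 : ∃ e, JV src dst e x0 x4) (b3 : ∃ e, JV src dst e x2 x4)
    (b4 : ∃ e, JV src dst e x3 x4) : PetMinor src dst := by
  refine PetMinor.of_list x0 x1 p x2 x4 r p' q q' x3 ?_ b1 (JV.symm a2) a3 b3 (JV.symm b2)
    (JV.symm a6) a5 (JV.symm a8) a9 a11 (JV.symm a1) (JV.symm a7) a4 (JV.symm a10) (JV.symm b4)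
  simp only [List.nodup_cons, List.mem_cons, List.not_mem_nil, or_false, not_or,
    List.nodup_nil, not_false_eq_true, and_true] at hn ⊢
  simp only [eq_comm] at hn ⊢
  tauto

/-- the collection `H(01|23) H(02|13) Y(034) e(14) e(24)` -/
theorem PetMinor.two {src dst : E → V} (x0 x1 x2 x3 x4 p q p' q' y : V)
    (hn : [x0, x1, x2, x3, x4, p, q, p', q', y].Nodup)
    (a1 : ∃ e, JV src dst e p x0) (a2 : ∃ e, JV src dst e p x1) (a3 : ∃ e, JV src dst e p q)
    (a4 : ∃ e, JV src dst e q x2) (a5 : ∃ e, JV src dst e q x3)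
    (a6 : ∃ e, JV src dst e p' x0) (a7 : ∃ e, JV src dst e p' x2)
    (a8 : ∃ e, JV src dst e p' q') (a9 : ∃ e, JV src dst e q' x1)
    (a10 : ∃ e, JV src dst e q' x3) (b1 : ∃ e, JV src dst e y x0)
    (b2 : ∃ e, JV src dst e y x3) (b3 : ∃ e, JV src dst e y x4)
    (b4 : ∃ e, JV src dst e x1 x4) (b5 : ∃ e, JV src dst e x2 x4) : PetMinor src dst := by
  refine PetMinor.of_list x0 p x1 x4 y p' q q' x2 x3 ?_ (JV.symm a1) a2 b4 (JV.symm b3) b1
    a8 a10 (JV.symm a5) a4 (JV.symm a7) (JV.symm a6) a3 (JV.symm a9) (JV.symm b5) b2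
  simp only [List.nodup_cons, List.mem_cons, List.not_mem_nil, or_false, not_or,
    List.nodup_nil, not_false_eq_true, and_true] at hn ⊢
  simp only [eq_comm] at hn ⊢
  tauto

end Pool.Agent.TH676.T4
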